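import Pool.Agent.H288Z.MG.Solv

set_option autoImplicit false

namespace Pool.Agent.Results.MP_a4feb0_gt.PrecompactMetrizable

open Filter Topology
open scoped Pointwise

/-- Every totally minimal, precompact, solvable Hausdorff topological group of countable tightness
is metrizable. -/
theorem result (G : Type) [Group G] [TopologicalSpace G] [IsTopologicalGroup G] [T2Space G]
    (hsolv : Group.IsSolvable G)
    (hpre : ∀ U ∈ 𝓝 (1 : G), ∃ F : Set G, F.Finite ∧ F * U = Set.univ)
    (hmin : ∀ (N : Subgroup G) [N.Normal], IsClosed (N : Set G) →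
      ∀ τ : TopologicalSpace (G ⧸ N), @IsTopologicalGroup (G ⧸ N) τ _ → @T2Space (G ⧸ N) τ →
        QuotientGroup.instTopologicalSpace N ≤ τ →
        τ = QuotientGroup.instTopologicalSpace N)
    (htight : ∀ (A : Set G) (x : G), x ∈ closure A → ∃ B ⊆ A, B.Countable ∧ x ∈ closure B) :
    TopologicalSpace.MetrizableSpace G := by
  refine Pool.Agent.H288Z.MG.metrizable_of_solvable hsolv (fun U hU => ?_) hmin htight
  obtain ⟨F, hF, hFU⟩ := hpre U hU
  refine ⟨F, hF, fun g => ?_⟩
  have hg : g ∈ F * U := hFU ▸ Set.mem_univ g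
  obtain ⟨f, hf, v, hv, rfl⟩ := Set.mem_mul.mp hg
  exact ⟨f, hf, by rwa [inv_mul_cancel_left]⟩

end Pool.Agent.Results.MP_a4feb0_gt.PrecompactMetrizable
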